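import Pool.Agent.Lib.H38H.W0
import Pool.Agent.Lib.H38H.O2

/-!
Chunk SLV4 (M). Lower bounds for `outSum` and `midSum`: most positions are good.

Let `n = Fintype.card ι`; there are `2 n` positions (`Fintype.card_prod`, `Fintype.card_bool`).

`sum_mid_ge`: every term is at least `if w.1 ∉ B ∪ S then 1 else 0` (`F ≥ 0`), so the sum is at least the number of positions outside `(B ∪ S) × Bool`, i.e. `2 n - 2 |B ∪ S|`.
`sum_out_ge`: the term at `w` is at least `1 - 1[w.1 ∈ B] - 1[outer w = some x', x'.1 ∈ B] - 1[outer w = none] - 1[outer w = some (flip w)] - 1[w.1 ∈ S]` (if `outer w = some x'` and `x'.1 = w.1` then `x' = flip w`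
by `eq_or_flip` and `I.outer_ne`). Sum over `w`: the five indicator sums are `2|B|`, at most `2|B|` (`w ↦ outer w` is injective where it is defined: `I.outer_symm`; the set of such `w` injects into `B ×ˢ univ`),
at most `2 L` (`card_ends`), at most `2 L` (`card_loop`), `2 |S|`. One may also work with the finset of bad positions: its cardinality is at most the sum, and the other terms are at least 1.
-/

set_option autoImplicit false

namespace Pool.Agent.H38H

open Classical

variable {ι : Type} [Fintype ι] {L : ℕ}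

theorem v4_pos (B : Finset ι) :
    ((Finset.univ.filter (fun w : ι × Bool => w.1 ∈ B)).card : ℝ) = 2 * B.card := by
  have h1 : Finset.univ.filter (fun w : ι × Bool => w.1 ∈ B) =
      B ×ˢ (Finset.univ : Finset Bool) := by
    ext w
    simp
  rw [h1, Finset.card_product, Finset.card_univ, Fintype.card_bool]
  push_cast
  ring

theorem v4_all : ∑ _w : ι × Bool, (1 : ℝ) = 2 * (Fintype.card ι : ℝ) := by
  rw [Finset.sum_const, Finset.card_univ, Fintype.card_prod, Fintype.card_bool, nsmul_eq_mul]
  push_cast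
  ring

theorem v4_ind_nonneg (p : Prop) [Decidable p] : (0 : ℝ) ≤ if p then 1 else 0 := by
  split_ifs <;> norm_num

/-- positions whose outer partner lies in a slot of `B` -/
theorem card_outer_mem (I : Inst ι L) (B : Finset ι) :
    (Finset.univ.filter (fun w : ι × Bool => ∃ x', I.outer w = some x' ∧ x'.1 ∈ B)).card ≤ 2 * B.card := by
  have h1 : (B ×ˢ (Finset.univ : Finset Bool)).card = 2 * B.card := by
    rw [Finset.card_product, Finset.card_univ, Fintype.card_bool, mul_comm]
  rw [← h1]
  refine Finset.card_le_card_of_injOn (fun w => (I.outer w).getD w) ?_ ?_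
  · intro w hw
    obtain ⟨x', hx', hB⟩ := (Finset.mem_filter.1 hw).2
    simp only [hx', Option.getD_some]
    exact Finset.mem_coe.2 (Finset.mem_product.2 ⟨hB, Finset.mem_univ _⟩)
  · intro w hw w' hw' he
    obtain ⟨x, hx, -⟩ := (Finset.mem_filter.1 hw).2
    obtain ⟨x', hx', -⟩ := (Finset.mem_filter.1 hw').2
    simp only [hx, hx', Option.getD_some] at he
    have h2 := I.outer_symm _ _ hx
    have h3 := I.outer_symm _ _ hx'
    rw [he, h3] at h2
    exact (Option.some.inj h2).symm

theorem sum_out_ge (I : Inst ι L) (B S : Finset ι) {F : Mv ι → ℝ} (h0 : ∀ a, 0 ≤ F a)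
    (h1 : ∀ a : Mv ι, a.1.1 ∉ S → 1 ≤ F a) :
    2 * (Fintype.card ι : ℝ) - (4 * B.card + 4 * L + 2 * S.card) ≤ outSum I B F := by
  have key : ∀ w : ι × Bool, (1 : ℝ) - (if w.1 ∈ B then 1 else 0) -
      (if ∃ x', I.outer w = some x' ∧ x'.1 ∈ B then 1 else 0) -
      (if I.outer w = none then 1 else 0) - (if I.outer w = some (flip w) then 1 else 0) -
      (if w.1 ∈ S then 1 else 0) ≤
      (I.outer w).elim 0
        (fun x' => if w.1 ∉ B ∧ x'.1 ∉ B ∧ x'.1 ≠ w.1 then F (w, x') else 0) := by
    intro w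
    have a1 := v4_ind_nonneg (w.1 ∈ B)
    have a2 := v4_ind_nonneg (∃ x', I.outer w = some x' ∧ x'.1 ∈ B)
    have a3 := v4_ind_nonneg (I.outer w = none)
    have a4 := v4_ind_nonneg (I.outer w = some (flip w))
    have a5 := v4_ind_nonneg (w.1 ∈ S)
    cases ho : I.outer w with
    | none =>
      rw [ho] at a2 a4
      rw [if_pos rfl]
      simp only [Option.elim]
      linarith
    | some x' =>
      simp only [Option.elim]
      rw [ho] at a2 a3 a4
      by_cases hB : w.1 ∈ B
      · rw [if_pos hB, if_neg (show ¬ (w.1 ∉ B ∧ x'.1 ∉ B ∧ x'.1 ≠ w.1) from fun h => h.1 hB)]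
        linarith
      by_cases hxB : x'.1 ∈ B
      · have hex : ∃ x'', some x' = some x'' ∧ x''.1 ∈ B := ⟨x', rfl, hxB⟩
        rw [if_pos hex, if_neg (show ¬ (w.1 ∉ B ∧ x'.1 ∉ B ∧ x'.1 ≠ w.1) from fun h => h.2.1 hxB)]
        linarith
      by_cases hxw : x'.1 = w.1
      · have hfl : some x' = some (flip w) := by
          rcases eq_or_flip hxw with h | h
          · exact absurd (by rw [ho, h]) (I.outer_ne w)
          · rw [h]
        rw [if_pos hfl, if_neg (show ¬ (w.1 ∉ B ∧ x'.1 ∉ B ∧ x'.1 ≠ w.1) from fun h => h.2.2 hxw)]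
        linarith
      rw [if_pos (show w.1 ∉ B ∧ x'.1 ∉ B ∧ x'.1 ≠ w.1 from ⟨hB, hxB, hxw⟩)]
      by_cases hS : w.1 ∈ S
      · rw [if_pos hS]
        have := h0 (w, x')
        linarith
      · have := h1 (w, x') hS
        linarith
  have h2 := Finset.sum_le_sum (fun w (_ : w ∈ (Finset.univ : Finset (ι × Bool))) => key w)
  rw [Finset.sum_sub_distrib, Finset.sum_sub_distrib, Finset.sum_sub_distrib,
    Finset.sum_sub_distrib, Finset.sum_sub_distrib, v4_all, Finset.sum_boole, Finset.sum_boole,
    Finset.sum_boole, Finset.sum_boole, Finset.sum_boole, v4_pos, v4_pos] at h2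
  have c1 : ((Finset.univ.filter (fun w : ι × Bool =>
      ∃ x', I.outer w = some x' ∧ x'.1 ∈ B)).card : ℝ) ≤ 2 * B.card := by
    exact_mod_cast card_outer_mem I B
  have c2 : ((Finset.univ.filter (fun x : ι × Bool => I.outer x = none)).card : ℝ) ≤ 2 * L := by
    exact_mod_cast card_ends I
  have c3 : ((Finset.univ.filter (fun x : ι × Bool => I.outer x = some (flip x))).card : ℝ) ≤
      2 * L := by
    exact_mod_cast card_loop I
  unfold outSum
  linarith

theorem sum_mid_ge (B S : Finset ι) {F : Mv ι → ℝ} (h0 : ∀ a, 0 ≤ F a)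
    (h1 : ∀ a : Mv ι, a.1.1 ∉ S → 1 ≤ F a) :
    2 * (Fintype.card ι : ℝ) - (2 * B.card + 2 * S.card) ≤ midSum B F := by
  have key : ∀ w : ι × Bool, (1 : ℝ) - (if w.1 ∈ B then 1 else 0) -
      (if w.1 ∈ S then 1 else 0) ≤ if w.1 ∉ B then F (w, flip w) else 0 := by
    intro w
    have a1 := v4_ind_nonneg (w.1 ∈ B)
    have a5 := v4_ind_nonneg (w.1 ∈ S)
    by_cases hB : w.1 ∈ B
    · rw [if_pos hB, if_neg (show ¬ (w.1 ∉ B) from fun h => h hB)]
      linarith
    rw [if_pos hB]
    by_cases hS : w.1 ∈ S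
    · rw [if_pos hS]
      have := h0 (w, flip w)
      linarith
    · have := h1 (w, flip w) hS
      linarith
  have h2 := Finset.sum_le_sum (fun w (_ : w ∈ (Finset.univ : Finset (ι × Bool))) => key w)
  rw [Finset.sum_sub_distrib, Finset.sum_sub_distrib, v4_all, Finset.sum_boole, Finset.sum_boole,
    v4_pos, v4_pos] at h2
  unfold midSum
  linarith

end Pool.Agent.H38H
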