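import Pool.Agent.Lib.H38H.V.V3
import Pool.Agent.Lib.H38H.V.V4

/-!
Chunk SLV5 (M). `V1` is a potential.

Proof of `V1_out`: if `V1 I Fb ℓ D mx my = 0` the left side is `0` and the right side is nonnegative (all terms are). If it is `1`: `sum_out_ge` with `S = I.badT Fb ℓ (early D mx ++ early D my)`, `V1_x` (resp. `V1_y`),
`V1_bad_card`, `B.card ≤ E` and `hδ`: `4 |B| + 4 L + 2 |S| ≤ δ * (2 n)`. The same for `midSum`. `pot2_V1`: all fields; `lef`, `nn` from `V1_cases`.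
-/

set_option autoImplicit false

namespace Pool.Agent.H38H

open Classical

variable {ι : Type} [Fintype ι] {L : ℕ}

theorem v5_nn (I : Inst ι L) (Fb : Finset ι) (ℓ D : ℕ) (mx my : List (Mv ι)) :
    0 ≤ V1 I Fb ℓ D mx my := by
  rcases V1_cases I Fb ℓ D mx my with h | h <;> rw [h]
  norm_num

theorem v5_out {I : Inst ι L} {Fb : Finset ι} {ℓ D E : ℕ} {δ v : ℝ}
    (hδ : 4 * (E : ℝ) + 4 * L + 2 * (20 * ℓ * L + (Fb.card + 2 * (D + 1)) * (10 * ℓ + 5)) ≤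
      δ * (2 * (Fintype.card ι : ℝ))) {B S : Finset ι} (hB : B.card ≤ E)
    (hS : S.card ≤ 20 * ℓ * L + (Fb.card + 2 * (D + 1)) * (10 * ℓ + 5)) {F : Mv ι → ℝ}
    (h0 : ∀ a, 0 ≤ F a) (hv : v = 0 ∨ v = 1) (h1 : v = 1 → ∀ a : Mv ι, a.1.1 ∉ S → 1 ≤ F a) :
    (1 - δ) * v * (2 * (Fintype.card ι : ℝ)) ≤ outSum I B F ∧
      (1 - δ) * v * (2 * (Fintype.card ι : ℝ)) ≤ midSum B F := by
  rcases hv with h | h
  · rw [h, mul_zero, zero_mul]
    constructor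
    · unfold outSum
      refine Finset.sum_nonneg fun w _ => ?_
      cases I.outer w with
      | none => exact le_refl _
      | some x' =>
        simp only [Option.elim]
        split_ifs
        · exact h0 _
        · exact le_refl _
    · unfold midSum
      refine Finset.sum_nonneg fun w _ => ?_
      split_ifs
      · exact le_refl _
      · exact h0 _
  · have hB' : (B.card : ℝ) ≤ E := by exact_mod_cast hB
    have hS' : (S.card : ℝ) ≤ 20 * ℓ * L + (Fb.card + 2 * (D + 1)) * (10 * ℓ + 5) := by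
      exact_mod_cast hS
    have hE0 : (0 : ℝ) ≤ B.card := Nat.cast_nonneg _
    have hL0 : (0 : ℝ) ≤ L := Nat.cast_nonneg _
    rw [h, mul_one]
    constructor
    · have h2 := sum_out_ge I B S h0 (h1 h)
      linarith
    · have h2 := sum_mid_ge B S h0 (h1 h)
      linarith

theorem V1_out_x {I : Inst ι L} {Fb : Finset ι} {ℓ D E : ℕ} {δ : ℝ} (hδ0 : 0 ≤ δ)
    (hδ : 4 * (E : ℝ) + 4 * L + 2 * (20 * ℓ * L + (Fb.card + 2 * (D + 1)) * (10 * ℓ + 5)) ≤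
      δ * (2 * (Fintype.card ι : ℝ))) (mx my : List (Mv ι)) {B : Finset ι} (hB : B.card ≤ E) :
    (1 - δ) * V1 I Fb ℓ D mx my * (2 * (Fintype.card ι : ℝ)) ≤
      outSum I B (fun a => V1 I Fb ℓ D (a :: mx) my) := by
  exact (v5_out (I := I) hδ hB (V1_bad_card I Fb ℓ D mx my) (F := fun a => V1 I Fb ℓ D (a :: mx) my)
    (fun a => v5_nn I Fb ℓ D _ _) (V1_cases I Fb ℓ D mx my)
    (fun h a ha => (V1_x h ha).ge)).1

theorem V1_out_y {I : Inst ι L} {Fb : Finset ι} {ℓ D E : ℕ} {δ : ℝ} (hδ0 : 0 ≤ δ)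
    (hδ : 4 * (E : ℝ) + 4 * L + 2 * (20 * ℓ * L + (Fb.card + 2 * (D + 1)) * (10 * ℓ + 5)) ≤
      δ * (2 * (Fintype.card ι : ℝ))) (mx my : List (Mv ι)) {B : Finset ι} (hB : B.card ≤ E) :
    (1 - δ) * V1 I Fb ℓ D mx my * (2 * (Fintype.card ι : ℝ)) ≤
      outSum I B (fun a => V1 I Fb ℓ D mx (a :: my)) := by
  exact (v5_out (I := I) hδ hB (V1_bad_card I Fb ℓ D mx my) (F := fun a => V1 I Fb ℓ D mx (a :: my))
    (fun a => v5_nn I Fb ℓ D _ _) (V1_cases I Fb ℓ D mx my)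
    (fun h a ha => (V1_y h ha).ge)).1

theorem V1_mid_x {I : Inst ι L} {Fb : Finset ι} {ℓ D E : ℕ} {δ : ℝ} (hδ0 : 0 ≤ δ)
    (hδ : 4 * (E : ℝ) + 4 * L + 2 * (20 * ℓ * L + (Fb.card + 2 * (D + 1)) * (10 * ℓ + 5)) ≤
      δ * (2 * (Fintype.card ι : ℝ))) (mx my : List (Mv ι)) {B : Finset ι} (hB : B.card ≤ E) :
    (1 - δ) * V1 I Fb ℓ D mx my * (2 * (Fintype.card ι : ℝ)) ≤
      midSum B (fun a => V1 I Fb ℓ D (a :: mx) my) := by
  exact (v5_out (I := I) hδ hB (V1_bad_card I Fb ℓ D mx my) (F := fun a => V1 I Fb ℓ D (a :: mx) my)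
    (fun a => v5_nn I Fb ℓ D _ _) (V1_cases I Fb ℓ D mx my)
    (fun h a ha => (V1_x h ha).ge)).2

theorem V1_mid_y {I : Inst ι L} {Fb : Finset ι} {ℓ D E : ℕ} {δ : ℝ} (hδ0 : 0 ≤ δ)
    (hδ : 4 * (E : ℝ) + 4 * L + 2 * (20 * ℓ * L + (Fb.card + 2 * (D + 1)) * (10 * ℓ + 5)) ≤
      δ * (2 * (Fintype.card ι : ℝ))) (mx my : List (Mv ι)) {B : Finset ι} (hB : B.card ≤ E) :
    (1 - δ) * V1 I Fb ℓ D mx my * (2 * (Fintype.card ι : ℝ)) ≤
      midSum B (fun a => V1 I Fb ℓ D mx (a :: my)) := by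
  exact (v5_out (I := I) hδ hB (V1_bad_card I Fb ℓ D mx my) (F := fun a => V1 I Fb ℓ D mx (a :: my))
    (fun a => v5_nn I Fb ℓ D _ _) (V1_cases I Fb ℓ D mx my)
    (fun h a ha => (V1_y h ha).ge)).2

theorem pot2_V1 {I : Inst ι L} {K Fb : Finset ι} {x0 y0 : ι × Bool} {ℓ D E : ℕ} {δ : ℝ} (hδ0 : 0 ≤ δ)
    (hδ : 4 * (E : ℝ) + 4 * L + 2 * (20 * ℓ * L + (Fb.card + 2 * (D + 1)) * (10 * ℓ + 5)) ≤
      δ * (2 * (Fintype.card ι : ℝ))) :
    Pot2 I K x0 y0 E (1 - δ) (1 - δ) (V1 I Fb ℓ D) (V1 I Fb ℓ D) := by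
  have nn : ∀ mx my, 0 ≤ V1 I Fb ℓ D mx my := fun mx my => by
    rcases V1_cases I Fb ℓ D mx my with h | h <;> rw [h]
    norm_num
  exact {
    nn := nn
    nnf := nn
    lef := fun mx my => by
      rcases V1_cases I Fb ℓ D mx my with h | h <;> rw [h]
      norm_num
    xout := fun mx _ _ B _ _ _ hB => V1_out_x hδ0 hδ mx [] hB
    xmid := fun mx _ _ B _ _ _ hB => V1_mid_x hδ0 hδ mx [] hB
    yout := fun mx my _ _ _ B _ _ hB => V1_out_y hδ0 hδ mx my hB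
    ymid := fun mx my _ _ _ B _ _ hB => V1_mid_y hδ0 hδ mx my hB
    youtf := fun mx my _ _ _ B _ _ hB => V1_out_y hδ0 hδ mx my hB }

end Pool.Agent.H38H
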