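import Pool.Agent.Lib.H38H.W0

/-!
Chunk SLV6 (M). Size of the depth `DD n = Nat.clog 2 (gg n ^ 550)`.

Proofs. `DD_ge`: `Nat.le_pow_clog`. `DD_le`: for `gg n ≥ 2`: `2 ^ (clog 2 m - 1) < m` (`Nat.pow_pred_clog_lt_self`), so `2 ^ DD n ≤ 2 * gg n ^ 550`.
`DD_lin`: `2 ^ DD n ≤ 2 * gg n ^ 550 ≤ 2 * n` (`gg_le`: `gg n ^ 550 ≤ gg n ^ 1000 ≤ n`), so `DD n * log 2 ≤ log 2 + log n`, and with `log 2 ≥ 1/2` (`Real.log_two_gt_d9`) `DD n ≤ 2 + 2 log n ≤ 4 log n`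
for `n ≥ 3` (`log 3 ≥ 1`, as `exp 1 < 3`). `DD_sq`: `(DD n + 2)^2 * 100 ≤ 100 * (6 log n)^2 ≤ gg n` by `log_le_gg 3600 2`.
`DD_bounds'`: `10 * 2 ^ DD n ≤ 20 * gg n ^ 550 ≤ gg n ^ 551` for `gg n ≥ 20`.
-/

set_option autoImplicit false

namespace Pool.Agent.H38H

theorem DD_ge (n : ℕ) : gg n ^ 550 ≤ 2 ^ DD n := by
  unfold DD
  exact Nat.le_pow_clog (by norm_num) _

theorem DD_le {n : ℕ} (h : 2 ≤ gg n) : 2 ^ DD n ≤ 2 * gg n ^ 550 := by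
  have h1 : 1 < gg n ^ 550 := Nat.one_lt_pow (by norm_num) (by omega)
  have h2 : 2 ^ (Nat.clog 2 (gg n ^ 550)).pred < gg n ^ 550 :=
    Nat.pow_pred_clog_lt_self (by norm_num) h1
  have h3 : 0 < Nat.clog 2 (gg n ^ 550) := Nat.clog_pos (by norm_num) h1
  have h4 : (Nat.clog 2 (gg n ^ 550)).pred + 1 = DD n := by
    unfold DD
    exact Nat.succ_pred_eq_of_pos h3
  rw [← h4, pow_succ, mul_comm]
  exact Nat.mul_le_mul_left 2 h2.le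

theorem slv6_lin {n : ℕ} (h : 2 ≤ gg n) (hn : 1 ≤ n) : (DD n : ℝ) ≤ 1 + 2 * Real.log n := by
  have h1 : 2 ^ DD n ≤ 2 * n := by
    refine (DD_le h).trans (Nat.mul_le_mul_left 2 ?_)
    exact (Nat.pow_le_pow_right (by omega) (by norm_num)).trans (gg_le n hn)
  have h2 : ((2 : ℝ) ^ DD n) ≤ 2 * n := by exact_mod_cast h1
  have hn0 : (0 : ℝ) < n := by exact_mod_cast hn
  have h3 := Real.log_le_log (by positivity) h2
  rw [Real.log_pow, Real.log_mul (by norm_num) hn0.ne'] at h3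
  have h4 := Real.log_two_gt_d9
  have h5 : 0 ≤ Real.log n := Real.log_nonneg (by exact_mod_cast hn)
  by_contra hc
  rw [not_le] at hc
  have h6 : (1 + 2 * Real.log n) * Real.log 2 < DD n * Real.log 2 :=
    mul_lt_mul_of_pos_right hc (by linarith)
  nlinarith

theorem slv6_sq : ∃ n₀ : ℕ, ∀ n : ℕ, n₀ ≤ n → 100 * (DD n + 2) ^ 2 ≤ gg n := by
  obtain ⟨n₁, h₁⟩ := gg_tendsto 2
  obtain ⟨n₂, h₂⟩ := log_le_gg 2500 2
  refine ⟨n₁ + n₂ + 3, fun n hn => ?_⟩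
  have hlin := slv6_lin (h₁ n (by omega)) (by omega)
  have hlog := h₂ n (by omega)
  have h1 : 1 ≤ Real.log n := by
    rw [Real.le_log_iff_exp_le (by exact_mod_cast (by omega : 0 < n))]
    have h3 := Real.exp_one_lt_d9
    have h4 : (3 : ℝ) ≤ n := by exact_mod_cast (by omega : 3 ≤ n)
    linarith
  have h2 : (DD n : ℝ) + 2 ≤ 5 * Real.log n := by linarith
  have h3 : 100 * ((DD n : ℝ) + 2) ^ 2 ≤ gg n := by
    refine le_trans ?_ hlog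
    have h4 : ((DD n : ℝ) + 2) ^ 2 ≤ (5 * Real.log n) ^ 2 :=
      pow_le_pow_left₀ (by positivity) h2 2
    nlinarith
  exact_mod_cast h3

theorem DD_sq : ∃ n₀ : ℕ, ∀ n : ℕ, n₀ ≤ n → 100 * (DD n + 2) ^ 2 ≤ gg n := slv6_sq

theorem DD_bounds' : ∃ n₀ : ℕ, ∀ n : ℕ, n₀ ≤ n → 10 * 2 ^ DD n ≤ gg n ^ 551 ∧ (DD n) ^ 2 ≤ gg n := by
  obtain ⟨n₁, h₁⟩ := gg_tendsto 20
  obtain ⟨n₂, h₂⟩ := slv6_sq
  refine ⟨n₁ + n₂, fun n hn => ⟨?_, ?_⟩⟩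
  · have h3 := h₁ n (by omega)
    have h4 := DD_le (n := n) (by omega)
    rw [pow_succ]
    calc 10 * 2 ^ DD n ≤ 10 * (2 * gg n ^ 550) := Nat.mul_le_mul_left 10 h4
      _ = gg n ^ 550 * 20 := by ring
      _ ≤ gg n ^ 550 * gg n := Nat.mul_le_mul_left _ h3
  · have h4 := h₂ n (by omega)
    have h5 : (DD n) ^ 2 ≤ (DD n + 2) ^ 2 := Nat.pow_le_pow_left (by omega) 2
    omega

end Pool.Agent.H38H
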