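import Mathlib

/-!
Chunk SLV7 (M). Numbers: the size conditions and the deficit. Pure arithmetic, `g` large, `g^1000 ≤ n`, `L, D, f, v ≤ g`, `c ≤ 2 g^550` (`c = 2^D`), `k ≤ g^560`.

Proofs. All are of the form: left side `≤ C * g^a`, right side `≥ g^b` with `a < b` and `g ≥ C` (`g ≥ 1000`): use `pow_le_pow_right₀`/`Nat.pow_le_pow_right` to bound every term by a constant times one power of `g`, then
`g ^ (a+1) = g * g ^ a` and `1000 ≤ g`.
(1) `k + 12c + v + 2L + 3 ≤ g^560 + 24 g^550 + g + 2 g + 3 ≤ 40 g^560 ≤ g^570`.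
(2) `10 (k + 12 c + L + 10) ≤ 10 (g^560 + 24 g^550 + g + 10) ≤ 400 g^560 ≤ g^1000 ≤ n`.
(3) `8 (D + 2) (k + 12 c + L + 1) ≤ 8 * 2 g * 30 g^560 ≤ g^600`, and `g^600 * g^400 ≤ n`.
(4) `4 g^570 + 4 L + 2 (20 g^950 L + (f + 2 (D+1)) (10 g^950 + 5)) ≤ 4 g^570 + 4 g + 40 g^951 + 2 * 5 g * 15 g^950 ≤ 400 g^951 ≤ g^952`, and `g^952 * g^48 ≤ n`, so `≤ (1/g^45) * (2 n)` (as `n / g^45 ≥ g^955`).
-/

set_option autoImplicit false

namespace Pool.Agent.H38H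

theorem slv7_pow {g : ℕ} (hg : 1000 ≤ g) {a b : ℕ} (hab : a < b) : 1000 * g ^ a ≤ g ^ b := by
  have h1 : g ^ (a + 1) ≤ g ^ b := Nat.pow_le_pow_right (by omega) hab
  have h2 : g ^ (a + 1) = g ^ a * g := pow_succ g a
  have h3 : g ^ a * 1000 ≤ g ^ a * g := Nat.mul_le_mul_left _ hg
  rw [h2] at h1
  rw [mul_comm]
  exact h3.trans h1

theorem slv7_one {g : ℕ} (hg : 1000 ≤ g) {b : ℕ} (hb : 1 ≤ b) : g ≤ g ^ b := by
  calc g = g ^ 1 := (pow_one g).symm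
    _ ≤ g ^ b := Nat.pow_le_pow_right (by omega) hb

theorem nv_one {g L c k v : ℕ} (hg : 1000 ≤ g) (hL : L ≤ g) (hc : c ≤ 2 * g ^ 550) (hk : k ≤ g ^ 560)
    (hv : v ≤ g) : k + 12 * c + v + 2 * L + 3 ≤ g ^ 570 := by
  have h1 := slv7_pow hg (a := 550) (b := 560) (by norm_num)
  have h2 := slv7_pow hg (a := 560) (b := 570) (by norm_num)
  have h3 := slv7_one hg (b := 550) (by norm_num)
  generalize g ^ 550 = A at *
  generalize g ^ 560 = B at *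
  generalize g ^ 570 = E at *
  omega

theorem nv_two {g n L c k : ℕ} (hg : 1000 ≤ g) (hn : g ^ 1000 ≤ n) (hL : L ≤ g) (hc : c ≤ 2 * g ^ 550)
    (hk : k ≤ g ^ 560) : 10 * (k + 12 * c + L + 10) ≤ n := by
  have h1 := slv7_pow hg (a := 550) (b := 560) (by norm_num)
  have h2 := slv7_pow hg (a := 560) (b := 1000) (by norm_num)
  have h3 := slv7_one hg (b := 550) (by norm_num)
  generalize g ^ 550 = A at *
  generalize g ^ 560 = B at *
  generalize g ^ 1000 = E at *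
  omega

theorem nv_three {g n L c k D : ℕ} (hg : 1000 ≤ g) (hn : g ^ 1000 ≤ n) (hL : L ≤ g) (hD : D + 2 ≤ g)
    (hc : c ≤ 2 * g ^ 550) (hk : k ≤ g ^ 560) :
    8 * ((D : ℝ) + 2) * (k + 12 * c + L + 1) ≤ 1 / (g : ℝ) ^ 400 * n := by
  have h1 := slv7_pow hg (a := 550) (b := 560) (by norm_num)
  have h3 := slv7_one hg (b := 550) (by norm_num)
  have hg0 : (0 : ℝ) < g := by
    have : 0 < g := by omega
    exact_mod_cast this
  have h4 : k + 12 * c + L + 1 ≤ 2 * g ^ 560 := by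
    generalize g ^ 550 = A at *
    generalize g ^ 560 = B at *
    omega
  have h5 : 8 * (D + 2) * (k + 12 * c + L + 1) ≤ g ^ 600 := by
    calc 8 * (D + 2) * (k + 12 * c + L + 1) ≤ 8 * g * (2 * g ^ 560) := by gcongr
      _ = 16 * (g * g ^ 560) := by ring
      _ ≤ g * (g * g ^ 560) := Nat.mul_le_mul_right _ (by omega)
      _ = g ^ 562 := by rw [← pow_succ', ← pow_succ']
      _ ≤ g ^ 600 := Nat.pow_le_pow_right (by omega) (by norm_num)
  have h6 : 8 * ((D : ℝ) + 2) * (k + 12 * c + L + 1) ≤ (g : ℝ) ^ 600 := by exact_mod_cast h5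
  refine h6.trans ?_
  have h7 : (g : ℝ) ^ 1000 ≤ n := by exact_mod_cast hn
  rw [one_div, inv_mul_eq_div, le_div_iff₀ (by positivity)]
  have h8 : (g : ℝ) ^ 600 * (g : ℝ) ^ 400 = (g : ℝ) ^ 1000 := by rw [← pow_add]
  rw [h8]
  exact h7

theorem nv_four {g n L D f : ℕ} (hg : 1000 ≤ g) (hn : g ^ 1000 ≤ n) (hL : L ≤ g) (hD : D + 2 ≤ g)
    (hf : f ≤ g) :
    4 * ((g ^ 570 : ℕ) : ℝ) + 4 * L + 2 * (20 * ((g ^ 950 : ℕ) : ℝ) * L + (f + 2 * ((D : ℝ) + 1)) *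
      (10 * ((g ^ 950 : ℕ) : ℝ) + 5)) ≤ 1 / (g : ℝ) ^ 45 * (2 * (n : ℝ)) := by
  have hg0 : (0 : ℝ) < g := by
    have : 0 < g := by omega
    exact_mod_cast this
  have h1 : g ^ 570 ≤ g ^ 950 := Nat.pow_le_pow_right (by omega) (by norm_num)
  have h2 := slv7_one hg (b := 950) (by norm_num)
  have h5 : 4 * g ^ 570 + 4 * L + 2 * (20 * g ^ 950 * L + (f + 2 * (D + 1)) * (10 * g ^ 950 + 5)) ≤
      g ^ 952 := by
    have h6 : f + 2 * (D + 1) ≤ 3 * g := by omega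
    have h7 : 10 * g ^ 950 + 5 ≤ 15 * g ^ 950 := by
      generalize g ^ 950 = P at *
      omega
    calc 4 * g ^ 570 + 4 * L + 2 * (20 * g ^ 950 * L + (f + 2 * (D + 1)) * (10 * g ^ 950 + 5))
        ≤ 4 * g ^ 950 + 4 * g ^ 950 + 2 * (20 * g ^ 950 * g + (3 * g) * (15 * g ^ 950)) := by
          have h8 : L ≤ g ^ 950 := hL.trans h2
          gcongr
      _ = 8 * (1 * g ^ 950) + 130 * (g * g ^ 950) := by ring
      _ ≤ 8 * (g * g ^ 950) + 130 * (g * g ^ 950) := by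
          have h8 : 1 ≤ g := by omega
          gcongr
      _ = 138 * (g * g ^ 950) := by ring
      _ ≤ g * (g * g ^ 950) := Nat.mul_le_mul_right _ (by omega)
      _ = g ^ 952 := by rw [← pow_succ', ← pow_succ']
  have h6 : 4 * ((g ^ 570 : ℕ) : ℝ) + 4 * L + 2 * (20 * ((g ^ 950 : ℕ) : ℝ) * L +
      (f + 2 * ((D : ℝ) + 1)) * (10 * ((g ^ 950 : ℕ) : ℝ) + 5)) ≤ (g : ℝ) ^ 952 := by
    exact_mod_cast h5
  refine h6.trans ?_
  have h7 : (g : ℝ) ^ 1000 ≤ n := by exact_mod_cast hn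
  have h8 : (g : ℝ) ^ 952 * (g : ℝ) ^ 45 ≤ (g : ℝ) ^ 1000 := by
    rw [← pow_add]
    refine pow_le_pow_right₀ ?_ (by norm_num)
    have : 1 ≤ g := by omega
    exact_mod_cast this
  have h9 : (0 : ℝ) ≤ n := Nat.cast_nonneg n
  rw [one_div, inv_mul_eq_div, le_div_iff₀ (by positivity)]
  linarith

end Pool.Agent.H38H
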