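import Mathlib

/-!
Chunk SLV8 (M). Numbers: products close to 1. Pure.

`nw_prod`: Bernoulli (`one_add_mul_le_pow`: `1 + n a ≤ (1 + a)^n` for `a ≥ -2`), applied to each factor: `(1 - 4/n)^m ≥ 1 - 4m/n`, `(1-δ)^D ≥ 1 - D δ`, `(1-e)^D ≥ 1 - D e`; and `(1-a)(1-b) ≥ 1 - a - b` for
`a, b ≥ 0` (also `(1-a)^2 ≥ 1 - 2a`). The `D`-th power `(2 (1-δ) (1-e))^D = 2^D (1-δ)^D (1-e)^D`, and `(2^D)^2 = 4^D`. So the left side is at least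
`(1 - 2 (4m/n + e + D δ + D e) - 2 δ) * 4^D`. All factors lie in `[0,1]`.
`nw_eta`: the total deficit for `δ = 1/g^45`, `e = 1/g^400`, `m = 4 c`, `c ≤ 2 g^550`, `n ≥ g^1000`, `D + 2 ≤ g`, `g ≥ 1000`:
`4m/n ≤ 32 g^550 / g^1000 ≤ g^-440`, `e + D e ≤ g^-399`, `(D + 1) δ ≤ g^-44`; the sum is `≤ 2 (g^-440 + g^-399 + g^-44) ≤ g^-43 ≤ g^-41`.
`nw_fail`: `2 g^-41 + 8 n / q + 16 / n ≤ g^-39` where `q = 4^D ≥ g^1100`, `g^1000 ≤ n ≤ 2 g^1000`: `8 n / q ≤ 16 g^-100`.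
`nw_touch`: `(1 + x)^N ≤ exp (N x) ≤ 1 + 2 N x` for `0 ≤ N x ≤ 1` (`Real.add_one_le_exp`; `Real.abs_exp_sub_one_le : |x| ≤ 1 → |exp x - 1| ≤ 2 |x|`); here `N x ≤ 16 g^550 * 2 g^301 / g^1000 = 32 g^-149 ≤ g^-101`.
-/

set_option autoImplicit false

namespace Pool.Agent.H38H

theorem slv8_mul {x y a b : ℝ} (hx0 : 0 ≤ x) (hx1 : x ≤ 1) (hx : 1 - a ≤ x) (hy0 : 0 ≤ y) (hy1 : y ≤ 1)
    (hy : 1 - b ≤ y) : 0 ≤ x * y ∧ x * y ≤ 1 ∧ 1 - (a + b) ≤ x * y := by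
  refine ⟨mul_nonneg hx0 hy0, mul_le_one₀ hx1 hy0 hy1, ?_⟩
  nlinarith [mul_nonneg (sub_nonneg.2 hx1) (sub_nonneg.2 hy1)]

theorem slv8_pow {x a : ℝ} (h0 : 0 ≤ a) (h1 : a ≤ 1) (hx : x = 1 - a) (m : ℕ) :
    0 ≤ x ^ m ∧ x ^ m ≤ 1 ∧ 1 - m * a ≤ x ^ m := by
  have hx0 : 0 ≤ x := by linarith
  have hx1 : x ≤ 1 := by linarith
  refine ⟨pow_nonneg hx0 m, pow_le_one₀ hx0 hx1, ?_⟩
  have h2 := one_add_mul_le_pow (a := -a) (by linarith) m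
  rw [hx]
  have e1 : (1 : ℝ) + -a = 1 - a := by ring
  have e2 : (1 : ℝ) + m * -a = 1 - m * a := by ring
  rw [e1, e2] at h2
  exact h2

theorem nw_prod {n e δ : ℝ} {m D : ℕ} (hn : 4 ≤ n) (he : 0 ≤ e) (he1 : e ≤ 1) (hδ : 0 ≤ δ) (hδ1 : δ ≤ 1) :
    (1 - 2 * (4 * m / n + e + D * δ + D * e + δ)) * 4 ^ D ≤
      ((1 - 4 / n) ^ m * (1 - e) * (2 * (1 - δ) * (1 - e)) ^ D) ^ 2 * ((1 - δ) * (1 - δ)) := by
  have hn0 : 0 < n := by linarith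
  obtain ⟨a0, a1, a2⟩ := slv8_pow (x := 1 - 4 / n) (a := 4 / n) (by positivity)
    (by rw [div_le_one hn0]; exact hn) rfl m
  obtain ⟨b0, b1, b2⟩ := slv8_pow (x := 1 - δ) hδ hδ1 rfl D
  obtain ⟨c0, c1, c2⟩ := slv8_pow (x := 1 - e) he he1 rfl D
  obtain ⟨d0, d1, d2⟩ := slv8_mul a0 a1 a2 (y := 1 - e) (b := e) (by linarith) (by linarith) le_rfl
  obtain ⟨f0, f1, f2⟩ := slv8_mul b0 b1 b2 c0 c1 c2
  obtain ⟨g0, g1, g2⟩ := slv8_mul d0 d1 d2 f0 f1 f2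
  obtain ⟨i0, i1, i2⟩ := slv8_mul g0 g1 g2 g0 g1 g2
  obtain ⟨j0, j1, j2⟩ := slv8_mul (x := 1 - δ) (a := δ) (by linarith) (by linarith) le_rfl
    (y := 1 - δ) (b := δ) (by linarith) (by linarith) le_rfl
  obtain ⟨k0, k1, k2⟩ := slv8_mul i0 i1 i2 j0 j1 j2
  have h4 : (4 : ℝ) ^ D = 2 ^ D * 2 ^ D := by rw [← mul_pow]; norm_num
  have h5 : ((1 - 4 / n) ^ m * (1 - e) * (2 * (1 - δ) * (1 - e)) ^ D) ^ 2 * ((1 - δ) * (1 - δ)) =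
      ((1 - 4 / n) ^ m * (1 - e) * ((1 - δ) ^ D * (1 - e) ^ D) *
        ((1 - 4 / n) ^ m * (1 - e) * ((1 - δ) ^ D * (1 - e) ^ D)) * ((1 - δ) * (1 - δ))) * 4 ^ D := by
    rw [mul_pow (2 * (1 - δ)), mul_pow 2, h4]
    ring
  rw [h5]
  refine mul_le_mul_of_nonneg_right ?_ (by positivity)
  have h6 : 4 * (m : ℝ) / n = m * (4 / n) := by ring
  rw [h6]
  linarith

/-- powers of `x = 1/g` -/
theorem slv8_x {g : ℕ} (hg : 1000 ≤ g) : 0 < 1 / (g : ℝ) ∧ 1 / (g : ℝ) ≤ 1 / 1000 := by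
  have hgR : (1000 : ℝ) ≤ g := by exact_mod_cast hg
  exact ⟨by positivity, one_div_le_one_div_of_le (by norm_num) hgR⟩

theorem slv8_frac {g : ℝ} (hg : 0 < g) (a b : ℕ) (h : a ≤ b) : g ^ a / g ^ b = (1 / g) ^ (b - a) := by
  rw [one_div, inv_pow, div_eq_iff (by positivity)]
  have h1 : g ^ b = g ^ (b - a) * g ^ a := by rw [← pow_add, Nat.sub_add_cancel h]
  rw [h1, ← mul_assoc, inv_mul_cancel₀ (by positivity), one_mul]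

theorem nw_eta {g n c D : ℕ} (hg : 1000 ≤ g) (hn : g ^ 1000 ≤ n) (hD : D + 2 ≤ g) (hc : c ≤ 2 * g ^ 550) :
    2 * (4 * ((4 * c : ℕ) : ℝ) / n + 1 / (g : ℝ) ^ 400 + D * (1 / (g : ℝ) ^ 45) + D * (1 / (g : ℝ) ^ 400) +
      1 / (g : ℝ) ^ 45) ≤ 1 / (g : ℝ) ^ 41 := by
  have hgR : (1000 : ℝ) ≤ g := by exact_mod_cast hg
  have hg0 : (0 : ℝ) < g := by linarith
  obtain ⟨x0, x1⟩ := slv8_x hg
  have hnR : (g : ℝ) ^ 1000 ≤ n := by exact_mod_cast hn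
  have hcR : (c : ℝ) ≤ 2 * (g : ℝ) ^ 550 := by exact_mod_cast hc
  have hDR : (D : ℝ) ≤ g := by
    have : D ≤ g := by omega
    exact_mod_cast this
  have hn0 : (0 : ℝ) < n := lt_of_lt_of_le (by positivity) hnR
  have e : ∀ k : ℕ, 1 / (g : ℝ) ^ k = (1 / (g : ℝ)) ^ k := fun k => by rw [one_div, one_div, inv_pow]
  have h1 : 4 * ((4 * c : ℕ) : ℝ) / n ≤ 32 * (1 / (g : ℝ)) ^ 450 := by
    have h2 : (g : ℝ) ^ 550 / (g : ℝ) ^ 1000 = (1 / (g : ℝ)) ^ 450 := slv8_frac hg0 550 1000 (by norm_num)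
    rw [← h2, mul_div_assoc']
    push_cast
    have h3 : (0 : ℝ) ≤ c := Nat.cast_nonneg c
    exact div_le_div₀ (by positivity) (by linarith) (by positivity) hnR
  rw [e, e, e]
  obtain ⟨x, hx⟩ : ∃ x, x = 1 / (g : ℝ) := ⟨_, rfl⟩
  rw [← hx] at h1 x0 x1 ⊢
  have hgx : (g : ℝ) * x = 1 := by rw [hx]; field_simp
  have hxle : x ≤ 1 := by linarith
  have p : ∀ a : ℕ, 44 ≤ a → x ^ a ≤ x ^ 44 := fun a ha => pow_le_pow_of_le_one x0.le hxle ha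
  have h2 : (D : ℝ) * x ^ 45 ≤ x ^ 44 := by
    calc (D : ℝ) * x ^ 45 ≤ g * x ^ 45 := mul_le_mul_of_nonneg_right hDR (by positivity)
      _ = (g * x) * x ^ 44 := by ring
      _ = x ^ 44 := by rw [hgx, one_mul]
  have h3 : (D : ℝ) * x ^ 400 ≤ x ^ 44 := by
    calc (D : ℝ) * x ^ 400 ≤ g * x ^ 400 := mul_le_mul_of_nonneg_right hDR (by positivity)
      _ = (g * x) * x ^ 399 := by ring
      _ = x ^ 399 := by rw [hgx, one_mul]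
      _ ≤ x ^ 44 := p 399 (by norm_num)
  have h4 := p 450 (by norm_num)
  have h5 := p 400 (by norm_num)
  have h6 := p 45 (by norm_num)
  have h7 : 72 * x ^ 44 ≤ x ^ 41 := by
    have h8 : x ^ 44 = x ^ 41 * x ^ 3 := by ring
    have h9 : x ^ 3 ≤ (1 / 1000) ^ 3 := pow_le_pow_left₀ x0.le x1 3
    have h10 : 0 < x ^ 41 := by positivity
    have h11 : 72 * x ^ 3 ≤ 1 := by
      refine (mul_le_mul_of_nonneg_left h9 (by norm_num)).trans (by norm_num)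
    calc 72 * x ^ 44 = x ^ 41 * (72 * x ^ 3) := by rw [h8]; ring
      _ ≤ x ^ 41 * 1 := mul_le_mul_of_nonneg_left h11 h10.le
      _ = x ^ 41 := mul_one _
  linarith

theorem nw_fail {g n : ℕ} {q : ℝ} (hg : 1000 ≤ g) (hn : g ^ 1000 ≤ n) (hn2 : n ≤ 2 * g ^ 1000)
    (hq : (g : ℝ) ^ 1100 ≤ q) :
    2 * (1 / (g : ℝ) ^ 41) + 8 * n / q + 16 / n ≤ 1 / (g : ℝ) ^ 39 := by
  have hgR : (1000 : ℝ) ≤ g := by exact_mod_cast hg
  have hg0 : (0 : ℝ) < g := by linarith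
  obtain ⟨x0, x1⟩ := slv8_x hg
  have hnR : (g : ℝ) ^ 1000 ≤ n := by exact_mod_cast hn
  have hn2R : (n : ℝ) ≤ 2 * (g : ℝ) ^ 1000 := by exact_mod_cast hn2
  have hn0 : (0 : ℝ) < n := lt_of_lt_of_le (by positivity) hnR
  have e : ∀ k : ℕ, 1 / (g : ℝ) ^ k = (1 / (g : ℝ)) ^ k := fun k => by rw [one_div, one_div, inv_pow]
  have h1 : 8 * (n : ℝ) / q ≤ 16 * (1 / (g : ℝ)) ^ 100 := by
    have h2 : (g : ℝ) ^ 1000 / (g : ℝ) ^ 1100 = (1 / (g : ℝ)) ^ 100 := slv8_frac hg0 1000 1100 (by norm_num)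
    rw [← h2, mul_div_assoc']
    exact div_le_div₀ (by positivity) (by linarith) (by positivity) hq
  have h2 : 16 / (n : ℝ) ≤ 16 * (1 / (g : ℝ)) ^ 1000 := by
    rw [← e, mul_one_div]
    exact div_le_div_of_nonneg_left (by norm_num) (by positivity) hnR
  rw [e, e]
  obtain ⟨x, hx⟩ : ∃ x, x = 1 / (g : ℝ) := ⟨_, rfl⟩
  rw [← hx] at h1 h2 x0 x1 ⊢
  have hxle : x ≤ 1 := by linarith
  have p : ∀ a : ℕ, 41 ≤ a → x ^ a ≤ x ^ 41 := fun a ha => pow_le_pow_of_le_one x0.le hxle ha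
  have h4 := p 100 (by norm_num)
  have h5 := p 1000 (by norm_num)
  have h7 : 34 * x ^ 41 ≤ x ^ 39 := by
    have h8 : x ^ 41 = x ^ 39 * x ^ 2 := by ring
    have h9 : x ^ 2 ≤ (1 / 1000) ^ 2 := pow_le_pow_left₀ x0.le x1 2
    have h10 : 0 < x ^ 39 := by positivity
    have h11 : 34 * x ^ 2 ≤ 1 := by
      refine (mul_le_mul_of_nonneg_left h9 (by norm_num)).trans (by norm_num)
    calc 34 * x ^ 41 = x ^ 39 * (34 * x ^ 2) := by rw [h8]; ring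
      _ ≤ x ^ 39 * 1 := mul_le_mul_of_nonneg_left h11 h10.le
      _ = x ^ 39 := mul_one _
  linarith

theorem slv8_exp {y : ℝ} (hy : 0 ≤ y) (N : ℕ) (h : N * y ≤ 1) : (1 + y) ^ N ≤ 1 + 2 * (N * y) := by
  have h1 : (1 + y) ^ N ≤ Real.exp (N * y) := by
    rw [Real.exp_nat_mul]
    have h2 := Real.add_one_le_exp y
    exact pow_le_pow_left₀ (by linarith) (by linarith) N
  have h0 : 0 ≤ N * y := mul_nonneg (Nat.cast_nonneg N) hy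
  have h3 := Real.abs_exp_sub_one_le (x := N * y) (by rw [abs_of_nonneg h0]; exact h)
  rw [abs_of_nonneg h0] at h3
  have h4 := le_abs_self (Real.exp (N * y) - 1)
  linarith

theorem nw_touch {g n c z : ℕ} (hg : 1000 ≤ g) (hn : g ^ 1000 ≤ n) (hc : c ≤ 2 * g ^ 550) (hz : z ≤ g) :
    (1 + 2 * (g : ℝ) ^ 300 * z / n) ^ (8 * c) ≤ 1 + 1 / (g : ℝ) ^ 100 := by
  have hgR : (1000 : ℝ) ≤ g := by exact_mod_cast hg
  have hg0 : (0 : ℝ) < g := by linarith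
  obtain ⟨x0, x1⟩ := slv8_x hg
  have hnR : (g : ℝ) ^ 1000 ≤ n := by exact_mod_cast hn
  have hcR : (c : ℝ) ≤ 2 * (g : ℝ) ^ 550 := by exact_mod_cast hc
  have hzR : (z : ℝ) ≤ g := by exact_mod_cast hz
  have hn0 : (0 : ℝ) < n := lt_of_lt_of_le (by positivity) hnR
  have e : ∀ k : ℕ, 1 / (g : ℝ) ^ k = (1 / (g : ℝ)) ^ k := fun k => by rw [one_div, one_div, inv_pow]
  have hy0 : 0 ≤ 2 * (g : ℝ) ^ 300 * z / n := by positivity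
  have hy : ((8 * c : ℕ) : ℝ) * (2 * (g : ℝ) ^ 300 * z / n) ≤ 32 * (1 / (g : ℝ)) ^ 149 := by
    have h2 : (g : ℝ) ^ 851 / (g : ℝ) ^ 1000 = (1 / (g : ℝ)) ^ 149 := slv8_frac hg0 851 1000 (by norm_num)
    rw [← h2, mul_div_assoc', mul_div_assoc']
    push_cast
    refine div_le_div₀ (by positivity) ?_ (by positivity) hnR
    have h3 : (c : ℝ) * z ≤ (2 * (g : ℝ) ^ 550) * g := mul_le_mul hcR hzR (Nat.cast_nonneg z) (by positivity)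
    calc 8 * (c : ℝ) * (2 * (g : ℝ) ^ 300 * z) = 16 * (g : ℝ) ^ 300 * (c * z) := by ring
      _ ≤ 16 * (g : ℝ) ^ 300 * ((2 * (g : ℝ) ^ 550) * g) := mul_le_mul_of_nonneg_left h3 (by positivity)
      _ = 32 * (g : ℝ) ^ 851 := by ring
  have h5 : 64 * (1 / (g : ℝ)) ^ 149 ≤ (1 / (g : ℝ)) ^ 100 := by
    obtain ⟨x, hx⟩ : ∃ x, x = 1 / (g : ℝ) := ⟨_, rfl⟩
    rw [← hx] at x0 x1 ⊢
    have hxle : x ≤ 1 := by linarith
    have h8 : x ^ 149 = x ^ 100 * x ^ 49 := by ring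
    have h9 : x ^ 49 ≤ x ^ 1 := pow_le_pow_of_le_one x0.le hxle (by norm_num)
    have h10 : 0 < x ^ 100 := by positivity
    have h11 : 64 * x ^ 49 ≤ 1 := by
      rw [pow_one] at h9
      linarith
    calc 64 * x ^ 149 = x ^ 100 * (64 * x ^ 49) := by rw [h8]; ring
      _ ≤ x ^ 100 * 1 := mul_le_mul_of_nonneg_left h11 h10.le
      _ = x ^ 100 := mul_one _
  have h6 : (1 / (g : ℝ)) ^ 100 ≤ 1 := pow_le_one₀ x0.le (by linarith)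
  have h7 := slv8_exp hy0 (8 * c) (by linarith)
  rw [e]
  linarith

end Pool.Agent.H38H
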