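import Pool.Agent.Lib.H38H.W0

/-!
Chunk SLV1 (S). Lists: the earliest moves.

`early D m = m.drop (m.length - (D + 1))`. Proofs: case split `m.length ≤ D` or `D < m.length` and `List.drop_succ_cons`, `List.drop_zero`, `List.length_drop`
(`(a :: m).length - (D + 1)` is `0` for `m.length ≤ D` and `(m.length - (D + 1)) + 1` otherwise).
-/

set_option autoImplicit false

namespace Pool.Agent.H38H

theorem early_nil {α : Type} (D : ℕ) : early D ([] : List α) = [] := by
  simp [early]

/-- a short list: the new element is added -/
theorem early_le {α : Type} {D : ℕ} {m : List α} (a : α) (h : m.length ≤ D) :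
    early D (a :: m) = a :: early D m := by
  have h1 : (a :: m).length - (D + 1) = 0 := by
    rw [List.length_cons]; omega
  have h2 : m.length - (D + 1) = 0 := by omega
  unfold early
  rw [h1, h2, List.drop_zero, List.drop_zero]

/-- a long list: nothing changes -/
theorem early_lt {α : Type} {D : ℕ} {m : List α} (a : α) (h : D < m.length) :
    early D (a :: m) = early D m := by
  have h1 : (a :: m).length - (D + 1) = (m.length - (D + 1)) + 1 := by
    rw [List.length_cons]; omega
  unfold early
  rw [h1, List.drop_succ_cons]

theorem early_length {α : Type} (D : ℕ) (m : List α) : (early D m).length ≤ D + 1 := by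
  unfold early
  rw [List.length_drop]
  omega

end Pool.Agent.H38H
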