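import Pool.Agent.Lib.H38H.W0
import Pool.Agent.Lib.H38H.O2

/-!
Chunk SLV2 (M). Bad targets and the condition `FarT`.

Proofs. `badT_card`: `Finset.card_union_le`, `card_short`, `Finset.card_biUnion_le_card_mul` with `ball_card` (`2 * (5 * ℓ + 2) + 1 = 10 * ℓ + 5`), and `(m.map ..).toFinset.card ≤ m.length`
(`List.toFinset_card_le`, `List.length_map`).
`farT_insert`: `I.FarT Fb ℓ (l₁ ++ l₂)` is a condition on each element and `List.Pairwise`; use `List.pairwise_append` and `List.pairwise_cons`: the new conditions are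
`b.1.1 ∉ ball (5ℓ+2) a.1.1` for `b ∈ l₁` (by `ball_symm` from `a.1.1 ∉ ball (5ℓ+2) b.1.1`) and `a.1.1 ∉ ball (5ℓ+2) c.1.1` for `c ∈ l₂`.
-/

set_option autoImplicit false

namespace Pool.Agent.H38H

open Classical

variable {ι : Type} [Fintype ι] {L : ℕ}

/-- bad targets: short, near `Fb`, or near an earlier target in the list `m` -/
noncomputable def Inst.badT (I : Inst ι L) (Fb : Finset ι) (ℓ : ℕ) (m : List (Mv ι)) : Finset ι :=
  (I.short ℓ ∪ Fb.biUnion (I.ball (5 * ℓ + 2))) ∪ (m.map (fun a => a.1.1)).toFinset.biUnion (I.ball (5 * ℓ + 2))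

theorem badT_card (I : Inst ι L) (Fb : Finset ι) (ℓ : ℕ) (m : List (Mv ι)) :
    (I.badT Fb ℓ m).card ≤ 20 * ℓ * L + (Fb.card + m.length) * (10 * ℓ + 5) := by
  unfold Inst.badT
  have h1 := card_short I ℓ
  have h2 : (Fb.biUnion (I.ball (5 * ℓ + 2))).card ≤ Fb.card * (10 * ℓ + 5) := by
    refine Finset.card_biUnion_le_card_mul _ _ _ (fun p _ => ?_)
    refine (ball_card I _ p).trans ?_
    omega
  have h3 : ((m.map (fun a => a.1.1)).toFinset.biUnion (I.ball (5 * ℓ + 2))).card ≤ m.length * (10 * ℓ + 5) := by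
    have h4 : ((m.map (fun a => a.1.1)).toFinset.biUnion (I.ball (5 * ℓ + 2))).card ≤
        (m.map (fun a => a.1.1)).toFinset.card * (10 * ℓ + 5) := by
      refine Finset.card_biUnion_le_card_mul _ _ _ (fun p _ => ?_)
      refine (ball_card I _ p).trans ?_
      omega
    refine h4.trans ?_
    apply Nat.mul_le_mul_right
    refine (List.toFinset_card_le _).trans ?_
    rw [List.length_map]
  refine (Finset.card_union_le _ _).trans ?_
  have h5 := Finset.card_union_le (I.short ℓ) (Fb.biUnion (I.ball (5 * ℓ + 2)))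
  have h6 : (Fb.card + m.length) * (10 * ℓ + 5) = Fb.card * (10 * ℓ + 5) + m.length * (10 * ℓ + 5) := by ring
  omega

theorem farT_nil (I : Inst ι L) (Fb : Finset ι) (ℓ : ℕ) : I.FarT Fb ℓ [] := by
  unfold Inst.FarT
  simp

/-- insert a move with a good target -/
theorem farT_insert {I : Inst ι L} {Fb : Finset ι} {ℓ : ℕ} {l₁ l₂ : List (Mv ι)} {a : Mv ι}
    (h : I.FarT Fb ℓ (l₁ ++ l₂)) (ha : a.1.1 ∉ I.badT Fb ℓ (l₁ ++ l₂)) : I.FarT Fb ℓ (l₁ ++ a :: l₂) := by
  unfold Inst.badT at ha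
  simp only [Finset.mem_union, not_or, Finset.mem_biUnion, not_exists, not_and, List.mem_toFinset,
    List.mem_map, forall_exists_index, and_imp, List.mem_append] at ha
  obtain ⟨⟨a1, a2⟩, a3⟩ := ha
  obtain ⟨h1, h2⟩ := h
  rw [List.pairwise_append] at h2
  obtain ⟨h3, h4, h5⟩ := h2
  refine ⟨?_, ?_⟩
  · intro b hb
    rw [List.mem_append, List.mem_cons] at hb
    rcases hb with hb | rfl | hb
    · exact h1 b (List.mem_append.mpr (Or.inl hb))
    · exact ⟨a1, a2⟩
    · exact h1 b (List.mem_append.mpr (Or.inr hb))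
  · rw [List.pairwise_append, List.pairwise_cons]
    refine ⟨h3, ⟨?_, h4⟩, ?_⟩
    · intro c hc
      exact a3 _ c (Or.inr hc) rfl
    · intro b hb c hc
      rw [List.mem_cons] at hc
      rcases hc with rfl | hc
      · intro hcon
        exact a3 _ b (Or.inl hb) rfl (ball_symm I hcon)
      · exact h5 b hb c hc

end Pool.Agent.H38H
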