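import Pool.Agent.Lib.H38H.V.V1
import Pool.Agent.Lib.H38H.V.V2

/-!
Chunk SLV3 (S/M). One step of the potential `V1`.

Proofs. `V1_cases`: by definition `0` or `1`. `V1_x`: `I.FarT Fb ℓ (early D mx ++ early D my)` holds (`V1 .. = 1`, the other value is `0`). If `D < mx.length` use `early_lt`: the same list. If
`mx.length ≤ D` use `early_le`, and `farT_insert` with `l₁ = []`, `l₂ = early D mx ++ early D my`. `V1_y`: the same with `l₁ = early D mx`, `l₂ = early D my`.
`V1_bad_card`: `badT_card` and `early_length` (`List.length_append`), monotonicity of the bound in the length.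
-/

set_option autoImplicit false

namespace Pool.Agent.H38H

open Classical

variable {ι : Type} [Fintype ι] {L : ℕ}

theorem V1_cases (I : Inst ι L) (Fb : Finset ι) (ℓ D : ℕ) (mx my : List (Mv ι)) :
    V1 I Fb ℓ D mx my = 0 ∨ V1 I Fb ℓ D mx my = 1 := by
  unfold V1
  split_ifs
  · exact Or.inr rfl
  · exact Or.inl rfl

theorem V1_nil (I : Inst ι L) (Fb : Finset ι) (ℓ D : ℕ) : V1 I Fb ℓ D [] [] = 1 := by
  unfold V1
  rw [if_pos]
  rw [early_nil, List.append_nil]
  exact farT_nil I Fb ℓ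

theorem slv3_far {I : Inst ι L} {Fb : Finset ι} {ℓ D : ℕ} {mx my : List (Mv ι)}
    (h : V1 I Fb ℓ D mx my = 1) : I.FarT Fb ℓ (early D mx ++ early D my) := by
  unfold V1 at h
  by_contra h1
  rw [if_neg h1] at h
  exact zero_ne_one h

theorem V1_x {I : Inst ι L} {Fb : Finset ι} {ℓ D : ℕ} {mx my : List (Mv ι)} {a : Mv ι}
    (h : V1 I Fb ℓ D mx my = 1) (ha : a.1.1 ∉ I.badT Fb ℓ (early D mx ++ early D my)) :
    V1 I Fb ℓ D (a :: mx) my = 1 := by
  have h1 := slv3_far h
  unfold V1
  rw [if_pos]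
  rcases Nat.lt_or_ge D mx.length with h2 | h2
  · rw [early_lt a h2]
    exact h1
  · rw [early_le a h2]
    exact farT_insert (l₁ := []) (l₂ := early D mx ++ early D my) h1 ha

theorem V1_y {I : Inst ι L} {Fb : Finset ι} {ℓ D : ℕ} {mx my : List (Mv ι)} {a : Mv ι}
    (h : V1 I Fb ℓ D mx my = 1) (ha : a.1.1 ∉ I.badT Fb ℓ (early D mx ++ early D my)) :
    V1 I Fb ℓ D mx (a :: my) = 1 := by
  have h1 := slv3_far h
  unfold V1
  rw [if_pos]
  rcases Nat.lt_or_ge D my.length with h2 | h2
  · rw [early_lt a h2]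
    exact h1
  · rw [early_le a h2]
    exact farT_insert h1 ha

theorem V1_bad_card (I : Inst ι L) (Fb : Finset ι) (ℓ D : ℕ) (mx my : List (Mv ι)) :
    (I.badT Fb ℓ (early D mx ++ early D my)).card ≤
      20 * ℓ * L + (Fb.card + 2 * (D + 1)) * (10 * ℓ + 5) := by
  refine (badT_card I Fb ℓ _).trans ?_
  refine Nat.add_le_add_left (Nat.mul_le_mul_right _ (Nat.add_le_add_left ?_ _)) _
  rw [List.length_append]
  have h1 := early_length D mx
  have h2 := early_length D my
  omega

end Pool.Agent.H38H
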